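import Pool.Agent.helper36.HK.Spec

/-! # Row fi:LOW (MP_ad8ced_nt, block HK): the lower bound for complex characters -/

set_option autoImplicit false

open Finset
open Pool.Agent.FI

noncomputable section

namespace Pool.Agent.HK

private theorem LOW_one_le_lf {M : ℝ} (hM : 1 ≤ M) (s : ℂ) : 1 ≤ lf M s := by
  have h1 : 0 ≤ Real.log M := Real.log_nonneg hM
  have h2 : 0 ≤ Real.log (2 + |s.im|) := Real.log_nonneg (by linarith [abs_nonneg s.im])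
  unfold lf
  linarith

theorem LOW (hTFO : TFO_stmt) (hABL : ABL_stmt) (hLIP : LIP_stmt) (hPOL : POL_stmt) : LOW_stmt := by
  intro C₀'
  obtain ⟨C₁', hC₁', h₁⟩ := hABL C₀' 0
  obtain ⟨C₂', hC₂', h₂⟩ := hLIP C₀'
  set C₀ := max C₀' 1 with hC₀def
  set C₁ := max C₁' 1 with hC₁def
  set C₂ := max C₂' 1 with hC₂def
  have hC₀ : 1 ≤ C₀ := le_max_right _ _
  have hC₁ : 1 ≤ C₁ := le_max_right _ _
  have hC₂ : 1 ≤ C₂ := le_max_right _ _
  have hC₀0 : 0 < C₀ := by linarith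
  have hC₁0 : 0 < C₁ := by linarith
  have hC₂0 : 0 < C₂ := by linarith
  set c₀ := 1 / (256 * C₀ ^ 3 * C₁ * C₂ ^ 4) with hc₀
  have hc₀0 : 0 < c₀ := by positivity
  have hc₀1 : c₀ ≤ 1 := by
    rw [hc₀, div_le_one (by positivity)]
    have h1 : 1 ≤ C₂ ^ 4 := one_le_pow₀ hC₂
    have h2 : 1 ≤ C₀ ^ 3 := one_le_pow₀ hC₀
    have h3 : 1 ≤ C₀ ^ 3 * C₁ := one_le_mul_of_one_le_of_one_le h2 hC₁
    have h4 : 1 ≤ C₀ ^ 3 * C₁ * C₂ ^ 4 := one_le_mul_of_one_le_of_one_le h3 h1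
    have h5 : 256 * C₀ ^ 3 * C₁ * C₂ ^ 4 = 256 * (C₀ ^ 3 * C₁ * C₂ ^ 4) := by ring
    rw [h5]
    linarith
  refine ⟨c₀, hc₀0, fun M k₁ k₂ g₁ g₂ h₁' h₂' hD s hs1 hs2 => ?_⟩
  obtain ⟨ck₁, ck₂, cg₁, cg₂, ch₁, ch₂, hTri, hM, hk, hg, hh⟩ := hD
  set ℓ := lf M s with hℓ
  have hℓ1 : 1 ≤ ℓ := LOW_one_le_lf hM s
  have hℓ0 : 0 < ℓ := by linarith
  set t := s.im with ht
  set x₀ := c₀ / ℓ ^ 9 with hx₀
  have hx₀0 : 0 < x₀ := by positivity
  have hx₀1 : x₀ ≤ 1 := by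
    rw [hx₀, div_le_one (by positivity)]
    exact hc₀1.trans (one_le_pow₀ hℓ1)
  -- the lower bound to the right of `1 + x₀`
  have main : ∀ x : ℝ, x₀ ≤ x → x ≤ 1 →
      2 * C₂ * c₀ / ℓ ^ 7 ≤ ‖DF (cv g₁ g₂) 0 (1 + (x : ℂ) + Complex.I * t)‖ := by
    intro x hxx₀ hx1
    have hx0 : 0 < x := by linarith
    have hprod := hTFO k₁ k₂ g₁ g₂ h₁' h₂' ck₁ ck₂ cg₁ cg₂ ch₁ ch₂ hTri x t hx0
    have ha : ‖DF (cv k₁ k₂) 0 (1 + (x : ℂ))‖ ≤ 2 * C₀ / x₀ := by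
      have h := hPOL C₀' (cv k₁ k₂) hk x hx0 hx1
      refine h.trans ?_
      have h3 : C₀' ≤ C₀ := le_max_left _ _
      calc 2 * C₀' / x ≤ 2 * C₀ / x := by gcongr
        _ ≤ 2 * C₀ / x₀ := by gcongr
    have hre2 : ((1 : ℂ) + (x : ℂ) + 2 * Complex.I * t).re = 1 + x := by simp
    have him2 : ((1 : ℂ) + (x : ℂ) + 2 * Complex.I * t).im = 2 * t := by simp
    have hb : ‖DF (cv h₁' h₂') 0 (1 + (x : ℂ) + 2 * Complex.I * t)‖ ≤ C₁ * (2 * ℓ) := by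
      have h := h₁ M hM (cv h₁' h₂') hh (1 + (x : ℂ) + 2 * Complex.I * t) (by rw [hre2]; linarith)
        (by rw [hre2]; linarith)
      rw [zero_add, pow_one] at h
      refine h.trans ?_
      have h3 : lf M (1 + (x : ℂ) + 2 * Complex.I * t) ≤ 2 * ℓ := by
        rw [hℓ]
        unfold lf
        rw [him2, ← ht]
        have hq1 : 0 ≤ Real.log M := Real.log_nonneg hM
        have h4 : 2 + |2 * t| ≤ 2 * (2 + |t|) := by
          rw [abs_mul, abs_two]; linarith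
        have h5 : Real.log (2 + |2 * t|) ≤ Real.log 2 + Real.log (2 + |t|) := by
          rw [← Real.log_mul (by norm_num) (by positivity)]
          exact Real.log_le_log (by positivity) h4
        have h6 : Real.log 2 ≤ 1 := by
          have := Real.log_two_lt_d9
          linarith
        have h7 : 0 ≤ Real.log (2 + |t|) := Real.log_nonneg (by linarith [abs_nonneg t])
        linarith
      have h8 : 0 ≤ lf M (1 + (x : ℂ) + 2 * Complex.I * t) := by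
        linarith [LOW_one_le_lf hM (1 + (x : ℂ) + 2 * Complex.I * t)]
      have h9 : C₁' ≤ C₁ := le_max_left _ _
      calc C₁' * lf M (1 + (x : ℂ) + 2 * Complex.I * t)
          ≤ C₁ * lf M (1 + (x : ℂ) + 2 * Complex.I * t) := by gcongr
        _ ≤ C₁ * (2 * ℓ) := by gcongr
    set y := ‖DF (cv g₁ g₂) 0 (1 + (x : ℂ) + Complex.I * t)‖ with hy
    have hy0 : 0 ≤ y := norm_nonneg _
    by_contra hcon
    push Not at hcon
    have h3 : ‖DF (cv k₁ k₂) 0 (1 + (x : ℂ))‖ ^ 3 * y ^ 4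
        * ‖DF (cv h₁' h₂') 0 (1 + (x : ℂ) + 2 * Complex.I * t)‖
        < (2 * C₀ / x₀) ^ 3 * (2 * C₂ * c₀ / ℓ ^ 7) ^ 4 * (C₁ * (2 * ℓ)) := by
      have h4 : y ^ 4 < (2 * C₂ * c₀ / ℓ ^ 7) ^ 4 := pow_lt_pow_left₀ hcon hy0 (by norm_num)
      have h5 : ‖DF (cv k₁ k₂) 0 (1 + (x : ℂ))‖ ^ 3
          ≤ (2 * C₀ / x₀) ^ 3 := pow_le_pow_left₀ (norm_nonneg _) ha 3
      calc ‖DF (cv k₁ k₂) 0 (1 + (x : ℂ))‖ ^ 3 * y ^ 4
            * ‖DF (cv h₁' h₂') 0 (1 + (x : ℂ) + 2 * Complex.I * t)‖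
          ≤ (2 * C₀ / x₀) ^ 3 * y ^ 4 * (C₁ * (2 * ℓ)) := by
            apply mul_le_mul _ hb (norm_nonneg _) (by positivity)
            exact mul_le_mul_of_nonneg_right h5 (by positivity)
        _ < (2 * C₀ / x₀) ^ 3 * (2 * C₂ * c₀ / ℓ ^ 7) ^ 4 * (C₁ * (2 * ℓ)) := by
            apply mul_lt_mul_of_pos_right _ (by positivity)
            exact mul_lt_mul_of_pos_left h4 (by positivity)
    have h6 : (2 * C₀ / x₀) ^ 3 * (2 * C₂ * c₀ / ℓ ^ 7) ^ 4 * (C₁ * (2 * ℓ)) = 1 := by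
      rw [hx₀, hc₀]
      field_simp
      norm_num
    rw [h6] at h3
    exact absurd hprod (not_le.2 h3)
  have hs : s = 1 + ((s.re - 1 : ℝ) : ℂ) + Complex.I * t := by
    apply Complex.ext <;> simp [ht]
  have h8 : c₀ / ℓ ^ 7 ≤ C₂ * c₀ / ℓ ^ 7 := by
    apply div_le_div_of_nonneg_right _ (by positivity)
    nlinarith
  have h9 : 2 * C₂ * c₀ / ℓ ^ 7 = C₂ * c₀ / ℓ ^ 7 + C₂ * c₀ / ℓ ^ 7 := by ring
  have h10 : 0 ≤ C₂ * c₀ / ℓ ^ 7 := by positivity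
  rcases le_or_gt x₀ (s.re - 1) with hcase | hcase
  · have h := main (s.re - 1) hcase (by linarith)
    rw [← hs] at h
    linarith
  · -- Lipschitz
    set s' : ℂ := 1 + (x₀ : ℂ) + Complex.I * t with hs'
    have hre' : s'.re = 1 + x₀ := by simp [hs']
    have him' : s'.im = t := by simp [hs']
    have hlip := h₂ M hM (cv g₁ g₂) hg s s' hs1 hs2 (by rw [hre']; linarith) (by rw [hre']; linarith)
      (by rw [him'])
    have hdiff : ‖s - s'‖ ≤ x₀ := by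
      have : s - s' = ((s.re - 1 - x₀ : ℝ) : ℂ) := by
        apply Complex.ext
        · simp [hs']; ring
        · simp [hs', ht]
      rw [this, Complex.norm_real, Real.norm_eq_abs, abs_of_nonpos (by linarith)]
      linarith
    have hlip2 : ‖DF (cv g₁ g₂) 0 s - DF (cv g₁ g₂) 0 s'‖ ≤ C₂ * c₀ / ℓ ^ 7 := by
      refine hlip.trans ?_
      calc C₂' * ℓ ^ 2 * ‖s - s'‖ ≤ C₂ * ℓ ^ 2 * x₀ := by
            apply mul_le_mul _ hdiff (norm_nonneg _) (by positivity)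
            exact mul_le_mul_of_nonneg_right (le_max_left _ _) (by positivity)
        _ = C₂ * c₀ / ℓ ^ 7 := by
            rw [hx₀]; field_simp
    have h := main x₀ le_rfl hx₀1
    rw [← hs'] at h
    have h7 : ‖DF (cv g₁ g₂) 0 s'‖ - ‖DF (cv g₁ g₂) 0 s‖ ≤ ‖DF (cv g₁ g₂) 0 s - DF (cv g₁ g₂) 0 s'‖ := by
      rw [norm_sub_rev]; exact norm_sub_norm_le _ _
    linarith

end Pool.Agent.HK
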